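import Pool.Agent.R596.NwMain

/-!
# A well-orderable notion of forcing with the countable chain condition that is not uniformly narrow

There is a countable transitive model of ZF that contains a well-orderable notion of forcing which
satisfies the `ω₁`-chain condition (`ω₁` is that of the model) but is not uniformly `ω`-narrow in
the model. The definitions are in `Pool.Agent.R596.NwDefs`.
-/

set_option autoImplicit false

namespace Pool.Agent.Results.MP_637f9c_lc.WellOrderedNotUniform

open Pool.Agent.W868 Pool.Agent.R596Nw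

theorem result : ∃ (M : Set ZFSet.{0}) (P Le κ : ZFSet.{0}), M.Countable ∧ IsZF M ∧
    IsForcing M P Le ∧ WellOrderable M P ∧ IsNext M ZFSet.omega κ ∧ ChainCondition M P Le κ ∧
    ¬ Uniform M P Le ZFSet.omega := by
  obtain ⟨M, P, Le, h1, h2, h3, h4, h5, h6⟩ := Pool.Agent.R596.NW.main
  obtain ⟨κ, hκ⟩ := Pool.Agent.R596.NW.exists_isNext h2
  exact ⟨M, P, Le, κ, h1, h2, h3, h4, hκ, Pool.Agent.R596.NW.chain_of_narrow h2 h5 hκ, h6⟩

end Pool.Agent.Results.MP_637f9c_lc.WellOrderedNotUniform
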